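import Pool.Agent.Run7.h105.PC.Defs

/-!
Piece BOX of project PC of helper105 (MP_efb919_an), by helper774: box counting for a compact set.
-/

set_option autoImplicit false

open Filter Topology Set MeasureTheory
open scoped ENNReal

namespace Run7.h774.PC

open Pool.Agent.Run7.h105.PC

theorem mem_cells {K : Set ℝ} {k i : ℕ} : i ∈ cells K k ↔
    i < k + 1 ∧ ∃ x ∈ K, (i : ℝ) / k ≤ x ∧ x < ((i : ℝ) + 1) / k := by
  simp only [cells, Finset.mem_filter, Finset.mem_range]

theorem vol_union (K : Set ℝ) (k : ℕ) (hk : 0 < k) :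
    volume (⋃ i ∈ cells K k, Ico ((i : ℝ) / k) (((i : ℝ) + 1) / k)) =
      ((cells K k).card : ℝ≥0∞) * ENNReal.ofReal (1 / (k : ℝ)) := by
  have hk' : (0 : ℝ) < k := by exact_mod_cast hk
  rw [measure_biUnion_finset]
  · rw [Finset.sum_congr rfl (g := fun _ => ENNReal.ofReal (1 / (k : ℝ)))]
    · rw [Finset.sum_const, nsmul_eq_mul]
    · intro i _
      rw [Real.volume_Ico]
      congr 1
      field_simp
      ring
  · intro i _ j _ hij
    refine Set.disjoint_left.2 fun x hx hy => hij ?_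
    have h1 := (div_le_iff₀ hk').1 hx.1
    have h2 := (lt_div_iff₀ hk').1 hx.2
    have h3 := (div_le_iff₀ hk').1 hy.1
    have h4 := (lt_div_iff₀ hk').1 hy.2
    have h5 : (i : ℝ) < (j : ℝ) + 1 := lt_of_le_of_lt h1 h4
    have h6 : (j : ℝ) < (i : ℝ) + 1 := lt_of_le_of_lt h3 h2
    have h7 : i < j + 1 := by exact_mod_cast h5
    have h8 : j < i + 1 := by exact_mod_cast h6
    omega
  · intro i _
    exact measurableSet_Ico

theorem sub_union {K : Set ℝ} (hK : K ⊆ Icc 0 1) (k : ℕ) (hk : 0 < k) :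
    K ⊆ ⋃ i ∈ cells K k, Ico ((i : ℝ) / k) (((i : ℝ) + 1) / k) := by
  have hk' : (0 : ℝ) < k := by exact_mod_cast hk
  intro y hy
  have h0 := hK hy
  have h1 : (0 : ℝ) ≤ y * k := mul_nonneg h0.1 hk'.le
  have h2 := Nat.floor_le h1
  have h3 := Nat.lt_floor_add_one (y * k)
  have h4 : ((⌊y * k⌋₊ : ℕ) : ℝ) / k ≤ y := (div_le_iff₀ hk').2 h2
  have h5 : y < (((⌊y * k⌋₊ : ℕ) : ℝ) + 1) / k := (lt_div_iff₀ hk').2 h3
  have h6 : ⌊y * k⌋₊ ∈ cells K k := by
    rw [mem_cells]
    refine ⟨?_, y, hy, h4, h5⟩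
    have h7 : ((⌊y * k⌋₊ : ℕ) : ℝ) ≤ k := h2.trans (by nlinarith [h0.2])
    have h8 : ⌊y * k⌋₊ ≤ k := by exact_mod_cast h7
    omega
  exact Set.mem_biUnion h6 ⟨h4, h5⟩

theorem union_sub (K : Set ℝ) (k : ℕ) (hk : 0 < k) :
    (⋃ i ∈ cells K k, Ico ((i : ℝ) / k) (((i : ℝ) + 1) / k)) ⊆
      Metric.cthickening (1 / (k : ℝ)) K := by
  have hk' : (0 : ℝ) < k := by exact_mod_cast hk
  refine Set.iUnion₂_subset fun i hi y hy => ?_
  obtain ⟨-, x, hx, h1, h2⟩ := mem_cells.1 hi
  refine Metric.mem_cthickening_of_dist_le y x _ K hx ?_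
  rw [Real.dist_eq, abs_le]
  have h3 : ((i : ℝ) + 1) / k = (i : ℝ) / k + 1 / k := by ring
  have h4 := hy.1
  have h5 := hy.2
  constructor <;> linarith

theorem t_BOX : S_BOX := by
  intro K hK hc
  have hfin : volume K ≠ ⊤ := hc.measure_lt_top.ne
  have hth : Tendsto (fun k : ℕ => (volume (Metric.cthickening (1 / (k : ℝ)) K)).toReal) atTop
      (𝓝 (volume K).toReal) := by
    have h1 := tendsto_measure_cthickening_of_isCompact (μ := volume) hc
    have h2 : Tendsto (fun k : ℕ => 1 / (k : ℝ)) atTop (𝓝 0) := tendsto_one_div_atTop_nhds_zero_nat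
    exact (ENNReal.tendsto_toReal hfin).comp (h1.comp h2)
  refine tendsto_of_tendsto_of_tendsto_of_le_of_le' tendsto_const_nhds hth ?_ ?_
  · filter_upwards [eventually_gt_atTop 0] with k hk
    have hk' : (0 : ℝ) < k := by exact_mod_cast hk
    have h1 := measure_mono (μ := volume) (sub_union hK k hk)
    rw [vol_union K k hk] at h1
    have h2 := ENNReal.toReal_mono (by
      exact ENNReal.mul_ne_top (ENNReal.natCast_ne_top _) ENNReal.ofReal_ne_top) h1
    rw [ENNReal.toReal_mul, ENNReal.toReal_natCast, ENNReal.toReal_ofReal (by positivity)] at h2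
    rwa [mul_one_div] at h2
  · filter_upwards [eventually_gt_atTop 0] with k hk
    have hk' : (0 : ℝ) < k := by exact_mod_cast hk
    have h1 := measure_mono (μ := volume) (union_sub K k hk)
    rw [vol_union K k hk] at h1
    have h3 : volume (Metric.cthickening (1 / (k : ℝ)) K) ≠ ⊤ :=
      (hc.cthickening).measure_lt_top.ne
    have h2 := ENNReal.toReal_mono h3 h1
    rw [ENNReal.toReal_mul, ENNReal.toReal_natCast, ENNReal.toReal_ofReal (by positivity)] at h2
    rwa [mul_one_div] at h2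

end Run7.h774.PC
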